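import Pool.Agent.H75.GG.Targets2

/-!
# AD3: few choices of the special rows are good for some algorithm
-/

set_option autoImplicit false

namespace Pool.Agent.H36.GG

open Finset Filter Pool.Agent.H6.NB Pool.Agent.H70.OQ Pool.Agent.H75.GS Pool.Agent.H75.GG

theorem pst_inj {n : ℕ} {x x' : Xn n} {z z' : Ys n 0} (h : pst n x z = pst n x' z') :
    x = x' ∧ z = z' := by
  unfold pst at h
  have h1 := (List.cons.inj h).2
  have h2 := List.append_inj h1 (by rw [List.length_ofFn, List.length_ofFn])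
  exact ⟨List.ofFn_injective h2.1, List.ofFn_injective h2.2⟩

theorem card_le_imp {α : Type} {i1 i2 : Fintype α} {p q : α → Prop} {d1 : DecidablePred p}
    {d2 : DecidablePred q} (h : ∀ a, p a → q a) :
    ((@Finset.filter α p d1 (@Finset.univ α i1)).card : ℝ) ≤
      ((@Finset.filter α q d2 (@Finset.univ α i2)).card : ℝ) := by
  have hi : i1 = i2 := Subsingleton.elim _ _
  subst hi
  refine Nat.cast_le.2 (Finset.card_le_card fun a ha => ?_)
  rw [Finset.mem_filter] at ha ⊢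
  exact ⟨ha.1, h a ha.2⟩

theorem card_Ys (n : ℕ) : (Fintype.card (Ys n 0) : ℝ) = 4 ^ n := by
  have h : Fintype.card (Ys n 0) = 4 ^ n := by
    show Fintype.card (Fin (2 ^ (0 + 1) * n) → Bool) = 4 ^ n
    rw [Fintype.card_fun, Fintype.card_bool, Fintype.card_fin, zero_add, pow_one, pow_mul]
    norm_num
  rw [h]
  push_cast
  ring

theorem OF_congr {G : Dat} {n : ℕ} (OT : List Bool → Bool) (F : Finset (Fin (G.r n)))
    (y y' : Spc G n) (h : ∀ k ∈ F, y k = y' k) : OF OT y F = OF OT y' F := by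
  funext w
  unfold OF
  have h1 : (∃ k ∈ F, w = ust y k) ↔ ∃ k ∈ F, w = ust y' k := by
    constructor
    · rintro ⟨k, hk, hw⟩
      refine ⟨k, hk, ?_⟩
      rw [hw]; unfold ust Pool.Agent.H75.GG.row; rw [h k hk]
    · rintro ⟨k, hk, hw⟩
      refine ⟨k, hk, ?_⟩
      rw [hw]; unfold ust Pool.Agent.H75.GG.row; rw [h k hk]
  rw [decide_eq_decide.2 h1]

open Classical in
/-- the choices of the special string which are queried -/
noncomputable def HvO (G : Dat) (n : ℕ) (Q : Xn n → QAlg) (lam : ℝ) (O : List Bool → Bool)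
    (j : Fin (G.r n)) : Finset ({x : Xn n // G.lab n x = j} × Ys n 0) :=
  univ.filter fun c => ∃ x, lam ≤ qm (Q x) O (pst n c.1.1 c.2)

theorem mem_HvO {G : Dat} {n : ℕ} {Q : Xn n → QAlg} {lam : ℝ} {O : List Bool → Bool}
    {j : Fin (G.r n)} {c : {x : Xn n // G.lab n x = j} × Ys n 0} :
    c ∈ HvO G n Q lam O j ↔ ∃ x, lam ≤ qm (Q x) O (pst n c.1.1 c.2) := by
  unfold HvO
  rw [Finset.mem_filter]
  exact ⟨fun h => h.2, fun h => ⟨Finset.mem_univ _, h⟩⟩

/-- the only row which is accepted -/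
def acO (G : Dat) (n : ℕ) (b : Xn n → Bool) (Q : Xn n → QAlg) (O : List Bool → Bool)
    (j : Fin (G.r n)) (x : {x : Xn n // G.lab n x = j}) : Prop :=
  b x.1 = false ∧ 1 / 2 < (Q x.1).prob O ∧
    ∀ x2 : {x : Xn n // G.lab n x = j}, b x2.1 = false → 1 / 2 < (Q x2.1).prob O → x2 = x

open Classical in
/-- one algorithm -/
theorem one_alg (hAD1 : T_AD1) (hAD2 : T_AD2) (hQMS : T_QMS) (G : Dat) (n : ℕ)
    (b : Xn n → Bool) (OT : List Bool → Bool) (Q : Xn n → QAlg) (τ θ : ℝ) (hL : LabOK G)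
    (hτ : 0 < τ) (hT : ∀ x, ((Q x).T : ℝ) ≤ τ)
    (hθ : 1154 * τ ^ 2 * (G.r n : ℝ) ^ 2 / 4 ^ n + 2 * G.r n / 2 ^ n ≤ θ) :
    ((univ.filter fun y : Spc G n => (∀ k, b (row y k) = false) ∧ CoQ b OT y Q).card : ℝ) ≤
      (G.r n + 1) * θ ^ G.r n * Fintype.card (Spc G n) := by
  have h4 : (0 : ℝ) < 4 ^ n := by positivity
  have h2 : (0 : ℝ) < 2 ^ n := by positivity
  obtain ⟨lam, hlam⟩ : ∃ lam : ℝ, lam = 1 / (577 * τ * G.r n) := ⟨_, rfl⟩
  obtain ⟨Hv, hHv⟩ : ∃ Hv : Finset (Fin (G.r n)) →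
      (∀ k, {x : Xn n // G.lab n x = k} × Ys n 0) →
      ∀ j, Finset ({x : Xn n // G.lab n x = j} × Ys n 0),
      ∀ F y, Hv F y = HvO G n Q lam (OF (G := G) OT y F) := ⟨_, fun _ _ => rfl⟩
  obtain ⟨ac, hac⟩ : ∃ ac : Finset (Fin (G.r n)) →
      (∀ k, {x : Xn n // G.lab n x = k} × Ys n 0) → ∀ j, {x : Xn n // G.lab n x = j} → Prop,
      ∀ F y, ac F y = acO G n b Q (OF (G := G) OT y F) := ⟨_, fun _ _ => rfl⟩
  have hX : ∀ j : Fin (G.r n), (2 : ℝ) ^ n ≤
      2 * G.r n * (Fintype.card {x : Xn n // G.lab n x = j} : ℝ) := by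
    intro j
    have h5 := hL n j
    rw [Fintype.card_subtype]
    exact h5
  have hsum : ∀ (F : Finset (Fin (G.r n))) (y : ∀ k, {x : Xn n // G.lab n x = k} × Ys n 0),
      ∑ j, ((Hv F y j).card : ℝ) * lam ≤ 2 ^ n * τ := by
    intro F y
    have e1 : ∀ j, ((Hv F y j).card : ℝ) * lam ≤ ∑ c : {x : Xn n // G.lab n x = j} × Ys n 0,
        ∑ x : Xn n, qm (Q x) (OF (G := G) OT y F) (pst n c.1.1 c.2) := by
      intro j
      have e2 : ((Hv F y j).card : ℝ) * lam ≤ ∑ c ∈ Hv F y j,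
          ∑ x : Xn n, qm (Q x) (OF (G := G) OT y F) (pst n c.1.1 c.2) := by
        rw [← nsmul_eq_mul]
        refine Finset.card_nsmul_le_sum _ _ _ fun c hc => ?_
        rw [hHv, mem_HvO] at hc
        obtain ⟨x, hx⟩ := hc
        refine hx.trans ?_
        exact Finset.single_le_sum
          (f := fun x => qm (Q x) (OF (G := G) OT y F) (pst n c.1.1 c.2))
          (fun x _ => (hQMS (Q x) _).1 _) (Finset.mem_univ x)
      refine e2.trans (Finset.sum_le_sum_of_subset_of_nonneg (Finset.subset_univ _) ?_)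
      intro c _ _
      exact Finset.sum_nonneg fun x _ => (hQMS (Q x) _).1 _
    have e3 : ∑ j, ∑ c : {x : Xn n // G.lab n x = j} × Ys n 0,
        ∑ x : Xn n, qm (Q x) (OF (G := G) OT y F) (pst n c.1.1 c.2) =
        ∑ x : Xn n, ∑ j, ∑ c : {x : Xn n // G.lab n x = j} × Ys n 0,
          qm (Q x) (OF (G := G) OT y F) (pst n c.1.1 c.2) := by
      rw [Finset.sum_comm]
      refine Finset.sum_congr rfl fun j _ => ?_
      exact Finset.sum_comm
    have e4 : ∀ x : Xn n, ∑ j, ∑ c : {x : Xn n // G.lab n x = j} × Ys n 0,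
          qm (Q x) (OF (G := G) OT y F) (pst n c.1.1 c.2) ≤ τ := by
      intro x
      refine le_trans ?_ ((hQMS (Q x) (OF (G := G) OT y F)).2
        ((univ : Finset (Σ j : Fin (G.r n), {x : Xn n // G.lab n x = j} × Ys n 0)).image
          (fun c => pst n c.2.1.1 c.2.2)) |>.trans (hT x))
      rw [Finset.sum_image, ← Finset.univ_sigma_univ, Finset.sum_sigma]
      rintro ⟨j, c⟩ _ ⟨j', c'⟩ _ hcc
      obtain ⟨e5, e6⟩ := pst_inj hcc
      have e7 : j = j' := by
        rw [← c.1.2, ← c'.1.2]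
        exact congrArg _ e5
      subst e7
      have e8 : c = c' := Prod.ext (Subtype.ext e5) e6
      rw [e8]
    calc ∑ j, ((Hv F y j).card : ℝ) * lam ≤ ∑ j, ∑ c : {x : Xn n // G.lab n x = j} × Ys n 0,
          ∑ x : Xn n, qm (Q x) (OF (G := G) OT y F) (pst n c.1.1 c.2) :=
          Finset.sum_le_sum fun j _ => e1 j
      _ = _ := e3
      _ ≤ ∑ x : Xn n, τ := Finset.sum_le_sum fun x _ => e4 x
      _ = 2 ^ n * τ := by
        rw [Finset.sum_const, Finset.card_univ, Fintype.card_fun, Fintype.card_bool,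
          Fintype.card_fin, nsmul_eq_mul]
        push_cast
        ring
  have hA := hAD2 (G.r n) (fun k => {x : Xn n // G.lab n x = k}) (Ys n 0) Hv ac θ ?_ ?_ ?_ ?_ ?_
  · have hcard : (Fintype.card (Spc G n) : ℝ) = ∏ j : Fin (G.r n),
        ((Fintype.card {x : Xn n // G.lab n x = j} : ℝ) * Fintype.card (Ys n 0)) := by
      show (Fintype.card (∀ k : Fin (G.r n), {x : Xn n // G.lab n x = k} × Ys n 0) : ℝ) = _
      rw [Fintype.card_pi]
      push_cast [Fintype.card_prod]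
      rfl
    rw [hcard]
    refine le_trans (card_le_imp fun y hy => ?_) hA
    obtain ⟨hy1, hy2⟩ := hy
    intro F _
    rcases hAD1 G n b OT y Q τ hτ hT hy2 F with ⟨j, hj, x, hx⟩ | h
    · refine Or.inl ⟨j, hj, ?_⟩
      rw [hHv, mem_HvO]
      refine ⟨x, ?_⟩
      rw [hlam]
      exact hx
    · refine Or.inr fun j _ => ?_
      rw [hac]
      refine ⟨hy1 j, ?_, fun x2 hx2 hp => ?_⟩
      · refine (h (y j).1.1 (hy1 j)).2 ?_
        have h5 : G.lab n (y j).1.1 = j := (y j).1.2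
        rw [h5]
        rfl
      · have h5 := (h x2.1 hx2).1 hp
        rw [x2.2] at h5
        exact Subtype.ext h5
  · intro F y y' hyy
    have h5 := OF_congr OT F y y' hyy
    exact ⟨by rw [hHv, hHv, h5], by rw [hac, hac, h5]⟩
  · intro F y
    rcases Nat.eq_zero_or_pos (G.r n) with hr | hr
    · have hE : IsEmpty (Fin (G.r n)) := by rw [hr]; infer_instance
      rw [Finset.univ_eq_empty, Finset.sum_empty]
      refine le_trans ?_ hθ
      positivity
    · have hr' : (0 : ℝ) < G.r n := by exact_mod_cast hr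
      have hl : 0 < lam := by rw [hlam]; positivity
      have h6 := hsum F y
      rw [← Finset.sum_mul] at h6
      have h7 : ∑ j, ((Hv F y j).card : ℝ) ≤ 577 * 2 ^ n * τ ^ 2 * G.r n := by
        rw [hlam, mul_one_div, div_le_iff₀ (by positivity)] at h6
        calc ∑ j, ((Hv F y j).card : ℝ) ≤ 2 ^ n * τ * (577 * τ * G.r n) := h6
          _ = _ := by ring
      have h8 : ∀ j : Fin (G.r n), ((Hv F y j).card : ℝ) /
          ((Fintype.card {x : Xn n // G.lab n x = j} : ℝ) * Fintype.card (Ys n 0)) ≤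
          ((Hv F y j).card : ℝ) * (2 * G.r n / (2 ^ n * 4 ^ n)) := by
        intro j
        have h9 : (0 : ℝ) < Fintype.card {x : Xn n // G.lab n x = j} := by
          by_contra h10
          have h11 := hX j
          have h12 : (Fintype.card {x : Xn n // G.lab n x = j} : ℝ) = 0 :=
            le_antisymm (not_lt.1 h10) (Nat.cast_nonneg _)
          rw [h12, mul_zero] at h11
          linarith
        rw [div_eq_mul_inv]
        refine mul_le_mul_of_nonneg_left ?_ (Nat.cast_nonneg _)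
        rw [card_Ys, inv_eq_one_div, div_le_div_iff₀ (by positivity) (by positivity)]
        calc 1 * ((2 : ℝ) ^ n * 4 ^ n) = 2 ^ n * 4 ^ n := by ring
          _ ≤ (2 * G.r n * (Fintype.card {x : Xn n // G.lab n x = j} : ℝ)) * 4 ^ n :=
            mul_le_mul_of_nonneg_right (hX j) h4.le
          _ = _ := by ring
      calc ∑ j, ((Hv F y j).card : ℝ) /
          ((Fintype.card {x : Xn n // G.lab n x = j} : ℝ) * Fintype.card (Ys n 0)) ≤
          ∑ j, ((Hv F y j).card : ℝ) * (2 * G.r n / (2 ^ n * 4 ^ n)) :=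
          Finset.sum_le_sum fun j _ => h8 j
        _ = (∑ j, ((Hv F y j).card : ℝ)) * (2 * G.r n / (2 ^ n * 4 ^ n)) :=
          (Finset.sum_mul _ _ _).symm
        _ ≤ (577 * 2 ^ n * τ ^ 2 * G.r n) * (2 * G.r n / (2 ^ n * 4 ^ n)) :=
          mul_le_mul_of_nonneg_right h7 (by positivity)
        _ = 1154 * τ ^ 2 * (G.r n : ℝ) ^ 2 / 4 ^ n := by field_simp; ring
        _ ≤ 1154 * τ ^ 2 * (G.r n : ℝ) ^ 2 / 4 ^ n + 2 * G.r n / 2 ^ n :=
          le_add_of_nonneg_right (by positivity)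
        _ ≤ θ := hθ
  · intro F y j x x' h5 h6
    rw [hac] at h5 h6
    exact h6.2.2 x h5.1 h5.2.1
  · intro j
    have hθ2 : 2 * (G.r n : ℝ) / 2 ^ n ≤ θ := le_trans (le_add_of_nonneg_left (by positivity)) hθ
    have h5 := hX j
    calc (1 : ℝ) = 2 ^ n / 2 ^ n := (div_self h2.ne').symm
      _ ≤ (2 * G.r n * (Fintype.card {x : Xn n // G.lab n x = j} : ℝ)) / 2 ^ n :=
        div_le_div_of_nonneg_right h5 h2.le
      _ = (2 * (G.r n : ℝ) / 2 ^ n) * (Fintype.card {x : Xn n // G.lab n x = j} : ℝ) := by ring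
      _ ≤ θ * (Fintype.card {x : Xn n // G.lab n x = j} : ℝ) :=
        mul_le_mul_of_nonneg_right hθ2 (Nat.cast_nonneg _)
  · exact Fintype.card_pos

theorem pf_AD3 (hAD1 : T_AD1) (hAD2 : T_AD2) (hQMS : T_QMS) (hNST : T_NST) : T_AD3 := by
  classical
  intro G n b OT J _ Q τ θ hL hτ hT hθ
  have h1 : (univ.filter fun y : Spc G n => (∀ k, b (row y k) = false) ∧
      ∃ j, CoQ b OT y (Q j)) ⊆ univ.biUnion fun j : J =>
        univ.filter fun y : Spc G n => (∀ k, b (row y k) = false) ∧ CoQ b OT y (Q j) := by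
    intro y hy
    obtain ⟨h2, j, h3⟩ := (Finset.mem_filter.1 hy).2
    exact Finset.mem_biUnion.2 ⟨j, Finset.mem_univ j, Finset.mem_filter.2
      ⟨Finset.mem_univ _, h2, h3⟩⟩
  have h2 := (Finset.card_le_card h1).trans Finset.card_biUnion_le
  have h3 : (((univ.filter fun y : Spc G n => (∀ k, b (row y k) = false) ∧
      ∃ j, CoQ b OT y (Q j)).card : ℕ) : ℝ) ≤ ∑ j : J, ((univ.filter fun y : Spc G n =>
        (∀ k, b (row y k) = false) ∧ CoQ b OT y (Q j)).card : ℝ) := by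
    exact_mod_cast h2
  refine h3.trans ?_
  have h4 : ∑ j : J, ((univ.filter fun y : Spc G n =>
      (∀ k, b (row y k) = false) ∧ CoQ b OT y (Q j)).card : ℝ) ≤
      ∑ j : J, (((G.r n : ℝ) + 1) * θ ^ G.r n * Fintype.card (Spc G n)) :=
    Finset.sum_le_sum fun j _ => one_alg hAD1 hAD2 hQMS G n b OT (Q j) τ θ hL hτ (hT j) hθ
  rw [Finset.sum_const, Finset.card_univ, nsmul_eq_mul] at h4
  exact h4

end Pool.Agent.H36.GG
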