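import Pool.Agent.H64.GG.TC
import Pool.Agent.H17.SX.ROW

/-!
# Row JKD: the dimension of the space of coefficients with vanishing jets (helper36)
-/

set_option autoImplicit false

open NumberField Height Finset Polynomial Pool.Agent.H24.RD Pool.Agent.H23.RDD Pool.Agent.H29.RQ
  Pool.Agent.H29.SX Pool.Agent.H29.LG Pool.Agent.H64.GG

namespace Pool.Agent.H36.GG

/-- the rank of all the conjugate equations -/
theorem rk (K Ω : Type) [Field K] [Field Ω] [Algebra K Ω] [IsGalois K Ω] (R : ℕ) (I : Type)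
    (u : I → Fin R → Ω) (X : Submodule K (Fin R → K))
    (hX : ∀ x, x ∈ X ↔ ∀ i, ∑ j, algebraMap K Ω (x j) * u i j = 0) :
    Module.finrank Ω (Submodule.span Ω (Set.range fun (p : (Ω ≃ₐ[K] Ω) × I) (j : Fin R) =>
      p.1 (u p.2 j))) + Module.finrank K X = R := by
  classical
  refine le_antisymm ?_ ?_
  · apply Pool.Agent.H17.SX.orth_dim X
    intro x hx v hv
    induction hv using Submodule.span_induction with
    | mem v hv =>
      obtain ⟨⟨τ, i⟩, rfl⟩ := hv
      have h2 := congrArg τ ((hX x).1 hx i)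
      rw [map_sum, map_zero] at h2
      rw [← h2]
      refine Finset.sum_congr rfl fun j _ => ?_
      rw [map_mul, AlgEquiv.commutes]
    | zero => simp
    | add v v' _ _ h1 h2 =>
      simp only [Pi.add_apply, mul_add, Finset.sum_add_distrib]
      rw [h1, h2, add_zero]
    | smul c v _ h1 =>
      simp only [Pi.smul_apply, smul_eq_mul]
      have : ∀ j, algebraMap K Ω (x j) * (c * v j) = c * (algebraMap K Ω (x j) * v j) := by
        intro j
        ring
      simp only [this]
      rw [← Finset.mul_sum, h1, mul_zero]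
  · obtain ⟨G, hG⟩ := LinearMap.exists_leftInverse_of_injective X.subtype (Submodule.ker_subtype X)
    let b : Module.Basis (Fin (Module.finrank K X)) K X := Module.finBasis K X
    have hGe : ∀ (v : Fin R → K), G v = ∑ j, v j • G (Pi.single j 1) := by
      intro v
      have h1 : v = ∑ j, v j • (Pi.single j (1 : K) : Fin R → K) := by
        funext t
        simp [Finset.sum_apply, Pi.single_apply]
      conv_lhs => rw [h1]
      rw [map_sum]
      refine Finset.sum_congr rfl fun j _ => ?_
      rw [map_smul]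
    obtain ⟨a, ν, f, g, haν, _, hli, _⟩ := Pool.Agent.H17.SX.pf_ROW K Ω R
      (R - Module.finrank K X) I (Fin (Module.finrank K X)) u
      (fun i j => algebraMap K Ω (b.repr (G (Pi.single j 1)) i)) (by
        intro x h1 h2
        have hx : x ∈ X := (hX x).2 h1
        have h3 : b.repr (G x) = 0 := by
          ext i
          have h4 := h2 i
          simp only [← map_mul, ← map_sum] at h4
          have h5 : ∑ j, x j * b.repr (G (Pi.single j 1)) i = 0 :=
            (map_eq_zero (algebraMap K Ω)).1 h4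
          rw [hGe x, map_sum, Finsupp.finsetSum_apply]
          simp only [map_smul, Finsupp.smul_apply, smul_eq_mul, Finsupp.zero_apply]
          exact h5
        have h6 : G x = 0 := by
          have := congrArg b.repr.symm h3
          simpa using this
        have h7 : G x = ⟨x, hx⟩ := LinearMap.congr_fun hG ⟨x, hx⟩
        rw [h6] at h7
        exact (congrArg Subtype.val h7).symm) X (fun x hx i => (hX x).1 hx i) (by omega)
    have h1 : ν ≤ Module.finrank K X := by
      have h2 : Function.Injective fun i => (g i).2 := by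
        intro i i' hii
        have h3 := (hli.comp Sum.inr Sum.inr_injective).injective
        apply h3
        funext j
        simp only [Function.comp_apply, Sum.elim_inr, AlgEquiv.commutes]
        simp only at hii
        rw [hii]
      have h3 := Fintype.card_le_of_injective _ h2
      rw [Fintype.card_fin, Fintype.card_fin] at h3
      exact h3
    have h2 : a ≤ Module.finrank Ω (Submodule.span Ω
        (Set.range fun (p : (Ω ≃ₐ[K] Ω) × I) (j : Fin R) => p.1 (u p.2 j))) := by
      have h3 := hli.comp Sum.inl Sum.inl_injective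
      have h4 : LinearIndependent Ω (fun i : Fin a => (⟨fun j => (f i).1 (u (f i).2 j),
          Submodule.subset_span ⟨f i, rfl⟩⟩ : Submodule.span Ω
            (Set.range fun (p : (Ω ≃ₐ[K] Ω) × I) (j : Fin R) => p.1 (u p.2 j)))) :=
        LinearIndependent.of_comp (Submodule.subtype _) h3
      have h5 := h4.fintype_card_le_finrank
      rw [Fintype.card_fin] at h5
      exact h5
    omega

theorem conj_row {r R : ℕ} (θ : Fin r → Om) (β : Om) (nn : Fin R → Fin (r + 1) → ℤ)
    (σ τ : Om →+* Om) (hθ : ∀ i, τ (θ i) = σ (θ i)) (hβ : τ β = σ β) (κ : Fin (r + 1) → ℕ)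
    (j : Fin R) : τ (jc Om κ (nn j) * pt θ β (nn j)) = σ (jc Om κ (nn j) * pt θ β (nn j)) := by
  unfold jc pt
  simp only [map_mul, map_prod, map_pow, map_intCast, map_zpow₀, hθ, hβ]

theorem galQ : IsGalois ℚ Om := by
  have h : ∀ A : Algebra ℚ Om, @IsGalois ℚ _ Om _ A := by
    intro A
    have e : A = (AlgebraicClosure.instAlgebra ℚ : Algebra ℚ Om) := Subsingleton.elim _ _
    rw [e]
    exact @IsAlgClosure.isGalois ℚ Om _ _ (AlgebraicClosure.instAlgebra ℚ) _ _
  exact h _

theorem pf_JKD : T_JKD := by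
  intro K L r θ β hKL hS t R nn
  have hQ : IsGalois ℚ Om := galQ
  have hK : IsGalois K Om := IsGalois.tower_top_intermediateField K
  have hL : IsGalois L Om := IsGalois.tower_top_intermediateField L
  have h1 := rk K Om R {κ : Fin (r + 1) → ℕ // ∑ l, κ l < t}
    (fun κ j => jc Om κ.1 (nn j) * pt θ β (nn j)) (JK K t (pt θ β) nn)
    (fun x => ⟨fun hx κ => hx κ.1 κ.2, fun hx κ hκ => hx ⟨κ, hκ⟩⟩)
  have h2 := rk L Om R {κ : Fin (r + 1) → ℕ // ∑ l, κ l < t}
    (fun κ j => jc Om κ.1 (nn j) * pt θ β (nn j)) (JK L t (pt θ β) nn)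
    (fun x => ⟨fun hx κ => hx κ.1 κ.2, fun hx κ hκ => hx ⟨κ, hκ⟩⟩)
  have h3 : (Set.range fun (p : (Om ≃ₐ[K] Om) × {κ : Fin (r + 1) → ℕ // ∑ l, κ l < t})
      (j : Fin R) => p.1 (jc Om p.2.1 (nn j) * pt θ β (nn j))) =
      Set.range fun (p : (Om ≃ₐ[L] Om) × {κ : Fin (r + 1) → ℕ // ∑ l, κ l < t})
      (j : Fin R) => p.1 (jc Om p.2.1 (nn j) * pt θ β (nn j)) := by
    ext v
    constructor
    · rintro ⟨⟨σ, κ⟩, rfl⟩
      obtain ⟨τ, hτ, hθ, hβ⟩ := hS (σ.restrictScalars ℚ) (fun z hz => σ.commutes ⟨z, hz⟩)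
      let τ' : Om ≃ₐ[L] Om := AlgEquiv.ofRingEquiv (f := (τ : Om ≃+* Om)) (fun z => hτ z.1 z.2)
      refine ⟨(τ', κ), ?_⟩
      funext j
      exact conj_row θ β nn ((σ.restrictScalars ℚ : Om ≃ₐ[ℚ] Om) : Om →+* Om)
        ((τ : Om ≃ₐ[ℚ] Om) : Om →+* Om) hθ hβ κ.1 j
    · rintro ⟨⟨σ, κ⟩, rfl⟩
      let τ' : Om ≃ₐ[K] Om := AlgEquiv.ofRingEquiv (f := (σ : Om ≃+* Om))
        (fun z => σ.commutes ⟨z.1, hKL z.2⟩)
      refine ⟨(τ', κ), ?_⟩
      funext j
      rfl
  rw [h3] at h1
  omega

end Pool.Agent.H36.GG
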